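import Pool.Agent.Helper10.CR.Goals2

/-! # Project CR (MP_ca5fc5_al), packet CR-ATI: the atomic relations in case I -/

universe u v

namespace Pool.Agent.Helper81.CR

open Pool.Agent.Helper10.Width Pool.Agent.Helper72.Width Pool.Agent.Helper78.SD
open Pool.Agent.Helper10.CR IsLocalRing

section

variable {R : Type u} [CommRing R] [IsLocalRing R] {r x b : R} (h : DI R r x b)
  {X : RS (ResidueField R) 4} (S : Str (ResidueField R) (ResidueField R) 2 X.V)

theorem rho_eq (a : R) : (ctxI h).ρ a = residue R a := rfl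

theorem mapRange_zero {ι : Type u} (f : ι →₀ R) (hf : ∀ i, f i ∈ maximalIdeal R) :
    Finsupp.mapRange (ctxI h).ρ (map_zero _) f = 0 := by
  ext i
  rw [Finsupp.mapRange_apply]
  exact residue_zero_of_mem (hf i)

theorem redD_zero {ι : Type u} (f : ι →₀ R) (hf : ∀ i, f i ∈ maximalIdeal R) :
    (ctxI h).redD f = 0 := by
  ext i
  rw [Ctx.redD_apply]
  exact residue_zero_of_mem (hf i)

theorem red_of_fst (f : (ctxI h).F S) (hf : ∀ i, f.1 i ∈ maximalIdeal R) :
    (ctxI h).red S f = S.e (0, (ctxI h).redD f.2) := by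
  rw [Ctx.red_apply, mapRange_zero h f.1 hf]

theorem red_zero (f : (ctxI h).F S) (hf : ∀ i, f.1 i ∈ maximalIdeal R)
    (hf' : ∀ i, f.2 i ∈ maximalIdeal R) : (ctxI h).red S f = 0 := by
  rw [red_of_fst h S f hf, redD_zero h f.2 hf']
  exact map_zero S.e

/-- Membership in `W`. -/
theorem mem_W (hS : IsStrI X S) (w : (ctxI h).F S) : w ∈ (ctxI h).W S ↔
    ∃ (f₀ f₁ : (ctxI h).F S) (κ : S.ιD →₀ R),
      ![(ctxI h).red S f₀, S.γ ((ctxI h).redD κ) 1 - (ctxI h).red S f₁, 0, 0] ∈ X.Rel ∧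
      w = (r * x) • f₀ + b • f₁ + (ctxI h).chi S κ := by
  constructor
  · rintro ⟨f, κ, hf, hw⟩
    change Fin 2 → (ctxI h).F S at f
    refine ⟨f 0, f 1, κ, ?_, ?_⟩
    · have := (hS.wr _).1 hf
      convert this using 1
      ext j
      fin_cases j
      · show (ctxI h).red S (f 0) = (ctxI h).red S (f 0) - S.γ ((ctxI h).redD κ) 0
        rw [hS.g0, sub_zero]
      · show S.γ ((ctxI h).redD κ) 1 - (ctxI h).red S (f 1) =
          -((ctxI h).red S (f 1) - S.γ ((ctxI h).redD κ) 1)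
        abel
      · rfl
      · rfl
    · rw [hw]
      have e1 : ∑ j : Fin 2, (![r * x, b] j) • f j = (r * x) • f 0 + b • f 1 := Fin.sum_univ_two _
      exact congrArg (· + (ctxI h).chi S κ) e1
  · rintro ⟨f₀, f₁, κ, hf, hw⟩
    refine ⟨![f₀, f₁], κ, ?_, ?_⟩
    · refine (hS.wr _).2 ?_
      convert hf using 1
      ext j
      fin_cases j
      · show (ctxI h).red S f₀ - S.γ ((ctxI h).redD κ) 0 = (ctxI h).red S f₀
        rw [hS.g0, sub_zero]
      · show -((ctxI h).red S f₁ - S.γ ((ctxI h).redD κ) 1) =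
          S.γ ((ctxI h).redD κ) 1 - (ctxI h).red S f₁
        abel
      · rfl
      · rfl
    · rw [hw]
      have e1 : ∑ j : Fin 2, (![r * x, b] j) • (![f₀, f₁] : Fin 2 → (ctxI h).F S) j =
          (r * x) • f₀ + b • f₁ := Fin.sum_univ_two _
      exact congrArg (· + (ctxI h).chi S κ) e1.symm

include h in
/-- The key computation in the ring. -/
theorem key {g u v : R} (e : x * g = u * (r * x) + v * b) :
    v ∈ maximalIdeal R ∧ g ∈ maximalIdeal R := by
  have hv := h.cap g u v e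
  refine ⟨hv, (h.ind g 0 ?_).1⟩
  have h1 : v * b = 0 := (h.soc v hv).2
  have h2 : r * (r * x) = 0 := (h.soc r h.rm).1
  rw [h1, add_zero] at e
  calc g * (r * x) + 0 * b = r * (x * g) := by ring
    _ = u * (r * (r * x)) := by rw [e]; ring
    _ = 0 := by rw [h2, mul_zero]

theorem rel_zero : (![0, 0, 0, 0] : Fin 4 → X.V) ∈ X.Rel := by
  have : (![0, 0, 0, 0] : Fin 4 → X.V) = 0 := by
    ext j
    fin_cases j <;> rfl
  rw [this]
  exact zero_mem _

theorem ker (hX : PI X) (hS : IsStrI X S) {h₀ h₁ : (ctxI h).F S} {κ : S.ιD →₀ R}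
    (e : (r * x) • h₀ + b • h₁ + (ctxI h).chi S κ = 0) :
    (ctxI h).redD κ = 0 ∧ ![(ctxI h).red S h₀, -(ctxI h).red S h₁, 0, 0] ∈ X.Rel := by
  have eA : ∀ i, (r * x) * h₀.1 i + b * h₁.1 i = 0 := by
    intro i
    have := DFunLike.congr_fun (congrArg Prod.fst e) i
    have e2 : ((r * x) • h₀.1 + b • h₁.1 + (0 : S.ιA →₀ R)) i = 0 := this
    simpa using e2
  have eD : ∀ i, (r * x) * h₀.2 i + b * h₁.2 i + x * κ i = 0 := by
    intro i
    have := DFunLike.congr_fun (congrArg Prod.snd e) i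
    have e2 : ((r * x) • h₀.2 + b • h₁.2 + x • κ) i = 0 := this
    simpa using e2
  have hA : ∀ i, h₀.1 i ∈ maximalIdeal R ∧ h₁.1 i ∈ maximalIdeal R := by
    intro i
    refine h.ind _ _ ?_
    rw [← eA i]
    ring
  have hD : ∀ i, -h₁.2 i ∈ maximalIdeal R ∧ κ i ∈ maximalIdeal R := by
    intro i
    refine key h (u := -h₀.2 i) ?_
    linear_combination eD i
  refine ⟨redD_zero h κ fun i => (hD i).2, ?_⟩
  have h1 : (ctxI h).red S h₁ = 0 := red_zero h S h₁ (fun i => (hA i).2) fun i => by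
    have := (hD i).1
    rwa [neg_mem_iff] at this
  rw [h1, neg_zero, red_of_fst h S h₀ (fun i => (hA i).1)]
  exact hX.xs _ _ (hS.g1 _)

theorem rel_add {w w' : Fin 4 → X.V} {v : Fin 4 → X.V} (hw : w ∈ X.Rel) (hw' : w' ∈ X.Rel)
    (e : ∀ j, v j = w j + w' j) : v ∈ X.Rel := by
  have : v = w + w' := funext e
  rw [this]
  exact add_mem hw hw'

theorem mem_W_iff (hX : PI X) (hS : IsStrI X S) (h₀ h₁ : (ctxI h).F S) (κ : S.ιD →₀ R) :
    (r * x) • h₀ + b • h₁ + (ctxI h).chi S κ ∈ (ctxI h).W S ↔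
    ![(ctxI h).red S h₀, S.γ ((ctxI h).redD κ) 1 - (ctxI h).red S h₁, 0, 0] ∈ X.Rel := by
  constructor
  · intro hw
    obtain ⟨f₀, f₁, κ', hf, e⟩ := (mem_W h S hS _).1 hw
    have hc : (ctxI h).chi S (κ - κ') = (ctxI h).chi S κ - (ctxI h).chi S κ' := by
      simp [Ctx.chi, smul_sub]
    have e' : (r * x) • (h₀ - f₀) + b • (h₁ - f₁) + (ctxI h).chi S (κ - κ') = 0 := by
      rw [hc, smul_sub, smul_sub]
      rw [← sub_eq_zero] at e
      rw [← e]
      abel
    obtain ⟨h1, h2⟩ := ker h S hX hS e'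
    rw [map_sub, sub_eq_zero] at h1
    refine rel_add hf h2 fun j => ?_
    rw [map_sub, map_sub, h1]
    fin_cases j
    · show (ctxI h).red S h₀ = (ctxI h).red S f₀ + ((ctxI h).red S h₀ - (ctxI h).red S f₀)
      abel
    · show S.γ ((ctxI h).redD κ') 1 - (ctxI h).red S h₁ =
        (S.γ ((ctxI h).redD κ') 1 - (ctxI h).red S f₁) +
          -((ctxI h).red S h₁ - (ctxI h).red S f₁)
      abel
    · show (0 : X.V) = 0 + 0
      rw [add_zero]
    · show (0 : X.V) = 0 + 0
      rw [add_zero]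
  · intro hr
    exact (mem_W h S hS _).2 ⟨h₀, h₁, κ, hr, rfl⟩

theorem chi_zero : (ctxI h).chi S 0 = 0 := by
  show ((0 : S.ιA →₀ R), x • (0 : S.ιD →₀ R)) = 0
  rw [smul_zero]
  rfl

theorem atom0 (hX : PI X) (hS : IsStrI X S) (t : ((ctxI h).tr X S).T) :
    b • t = 0 ↔ ((ctxI h).tr X S).π t = 0 := by
  obtain ⟨y, rfl⟩ := Submodule.Quotient.mk_surjective ((ctxI h).W S) t
  have e1 : b • (Submodule.Quotient.mk y : (ctxI h).F S ⧸ (ctxI h).W S) = 0 ↔
      b • y ∈ (ctxI h).W S := by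
    rw [← Submodule.Quotient.mk_smul, Submodule.Quotient.mk_eq_zero]
  have e2 : b • y = (r * x) • (0 : (ctxI h).F S) + b • y + (ctxI h).chi S 0 := by
    rw [chi_zero, smul_zero, zero_add, add_zero]
  refine e1.trans ?_
  rw [Ctx.tr_π, e2, mem_W_iff h S hX hS]
  simp only [map_zero, Pi.zero_apply, zero_sub]
  constructor
  · intro hr
    exact neg_eq_zero.1 (hX.inj _ hr)
  · intro hr
    rw [hr, neg_zero]
    exact rel_zero

end

theorem goalAtI : GoalAtI.{u} := by
  intro R _ _ r x b h X hX S hS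
  have h0 := atom0 h S hX hS
  refine ⟨h0, fun t s => ?_, fun t s => ⟨?_, fun hr => ?_⟩⟩
  · obtain ⟨y, rfl⟩ := Submodule.Quotient.mk_surjective ((ctxI h).W S) t
    obtain ⟨y', rfl⟩ := Submodule.Quotient.mk_surjective ((ctxI h).W S) s
    have e1 : (r * x) • (Submodule.Quotient.mk y : (ctxI h).F S ⧸ (ctxI h).W S) =
        b • (Submodule.Quotient.mk y' : (ctxI h).F S ⧸ (ctxI h).W S) ↔
        (r * x) • y - b • y' ∈ (ctxI h).W S := by
      rw [← Submodule.Quotient.mk_smul, ← Submodule.Quotient.mk_smul, Submodule.Quotient.eq]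
    refine e1.trans ?_
    have e2 : (r * x) • y - b • y' = (r * x) • y + b • (-y') + (ctxI h).chi S 0 := by
      rw [chi_zero, smul_neg, add_zero, sub_eq_add_neg]
    rw [Ctx.tr_π, Ctx.tr_π, e2, mem_W_iff h S hX hS]
    simp only [map_zero, Pi.zero_apply, zero_sub, map_neg, neg_neg]
  · rintro ⟨t', ht', hxt⟩
    have hπ : ((ctxI h).tr X S).π t' = ((ctxI h).tr X S).π t := by
      have := (h0 _).1 ht'
      rwa [map_sub, sub_eq_zero] at this
    rw [← hπ]
    obtain ⟨y, rfl⟩ := Submodule.Quotient.mk_surjective ((ctxI h).W S) t'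
    obtain ⟨s₀, rfl⟩ := Submodule.Quotient.mk_surjective ((ctxI h).W S) s
    have e1 : x • y - b • s₀ ∈ (ctxI h).W S := by
      have e : x • (Submodule.Quotient.mk y : (ctxI h).F S ⧸ (ctxI h).W S) =
        b • (Submodule.Quotient.mk s₀ : (ctxI h).F S ⧸ (ctxI h).W S) := hxt
      rwa [← Submodule.Quotient.mk_smul, ← Submodule.Quotient.mk_smul,
        Submodule.Quotient.eq] at e
    obtain ⟨f₀, f₁, κ, hf, e⟩ := (mem_W h S hS _).1 e1
    have eA : ∀ i, x * y.1 i = f₀.1 i * (r * x) + (f₁.1 i + s₀.1 i) * b := by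
      intro i
      have := DFunLike.congr_fun (congrArg Prod.fst e) i
      have e2 : (x • y.1 - b • s₀.1) i = ((r * x) • f₀.1 + b • f₁.1 + (0 : S.ιA →₀ R)) i := this
      simp only [Finsupp.coe_sub, Finsupp.coe_add, Finsupp.coe_smul, Pi.sub_apply, Pi.add_apply,
        Pi.smul_apply, smul_eq_mul, Finsupp.coe_zero, Pi.zero_apply] at e2
      linear_combination e2
    have eD : ∀ i, x * (y.2 i - κ i) = f₀.2 i * (r * x) + (f₁.2 i + s₀.2 i) * b := by
      intro i
      have := DFunLike.congr_fun (congrArg Prod.snd e) i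
      have e2 : (x • y.2 - b • s₀.2) i = ((r * x) • f₀.2 + b • f₁.2 + x • κ) i := this
      simp only [Finsupp.coe_sub, Finsupp.coe_add, Finsupp.coe_smul, Pi.sub_apply, Pi.add_apply,
        Pi.smul_apply, smul_eq_mul] at e2
      linear_combination e2
    have hy : (ctxI h).red S y = S.e (0, (ctxI h).redD κ) := by
      rw [red_of_fst h S y (fun i => (key h (eA i)).2)]
      have : (ctxI h).redD (y.2 - κ) = 0 := redD_zero h _ fun i => (key h (eD i)).2
      rw [map_sub, sub_eq_zero] at this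
      rw [this]
    have hs : (ctxI h).red S (f₁ + s₀) = 0 :=
      red_zero h S _ (fun i => (key h (eA i)).1) fun i => (key h (eD i)).1
    rw [map_add] at hs
    have hs' : (ctxI h).red S s₀ = -(ctxI h).red S f₁ := (neg_eq_of_add_eq_zero_right hs).symm
    rw [Ctx.tr_π, Ctx.tr_π, hy, hs']
    refine rel_add (hS.g1 ((ctxI h).redD κ)) (hX.sx _ _ hf) fun j => ?_
    fin_cases j
    · show (0 : X.V) = 0 + 0
      rw [add_zero]
    · show (0 : X.V) = 0 + 0
      rw [add_zero]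
    · show S.e (0, (ctxI h).redD κ) = S.e (0, (ctxI h).redD κ) + 0
      rw [add_zero]
    · show -(ctxI h).red S f₁ = -(S.γ ((ctxI h).redD κ) 1) +
        (S.γ ((ctxI h).redD κ) 1 - (ctxI h).red S f₁)
      abel
  · obtain ⟨s₀, rfl⟩ := Submodule.Quotient.mk_surjective ((ctxI h).W S) s
    obtain ⟨z, hz⟩ := hS.hD _ _ hr
    obtain ⟨κ, hκ⟩ := Finsupp.mapRange_surjective (ctxI h).ρ' (map_zero _) (ctxI h).hρ' z
    have hκ' : (ctxI h).redD κ = z := hκ
    have h1 : ![0, 0, 0, (ctxI h).red S s₀ + S.γ z 1] ∈ X.Rel := by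
      refine rel_add hr (neg_mem (hS.g1 z)) fun j => ?_
      fin_cases j
      · show (0 : X.V) = 0 + -0
        rw [neg_zero, add_zero]
      · show (0 : X.V) = 0 + -0
        rw [neg_zero, add_zero]
      · show (0 : X.V) = ((ctxI h).tr X S).π t + -(S.e (0, z))
        rw [hz, add_neg_cancel]
      · show (ctxI h).red S s₀ + S.γ z 1 = (ctxI h).red S s₀ + -(-(S.γ z 1))
        rw [neg_neg]
    obtain ⟨y₀, hy₀⟩ := hX.xs' _ h1
    obtain ⟨f₀, hf₀⟩ := (ctxI h).red_surjective S y₀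
    have h2 : (r * x) • f₀ + b • (-s₀) + (ctxI h).chi S κ ∈ (ctxI h).W S := by
      rw [mem_W_iff h S hX hS, hκ', hf₀, map_neg, sub_neg_eq_add, add_comm (S.γ z 1)]
      exact hy₀
    refine ⟨Submodule.Quotient.mk ((0, κ) + r • f₀), ?_, ?_⟩
    · refine (h0 _).2 ?_
      rw [map_sub, Ctx.tr_π, map_add, Ctx.red_smul, ← hz]
      have h3 : (ctxI h).ρ r = 0 := residue_zero_of_mem h.rm
      have h4 : (ctxI h).red S (0, κ) = S.e (0, z) := by
        rw [red_of_fst h S (0, κ) (fun i => by simp)]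
        rw [hκ']
      rw [h3, h4, zero_smul, add_zero, sub_self]
    · have e3 : x • (Submodule.Quotient.mk ((0, κ) + r • f₀) : (ctxI h).F S ⧸ (ctxI h).W S) =
          b • (Submodule.Quotient.mk s₀ : (ctxI h).F S ⧸ (ctxI h).W S) := by
        rw [← Submodule.Quotient.mk_smul, ← Submodule.Quotient.mk_smul, Submodule.Quotient.eq]
        convert h2 using 1
        have e4 : (ctxI h).chi S κ = x • ((0 : S.ιA →₀ R), κ) := by
          show ((0 : S.ιA →₀ R), x • κ) = x • ((0 : S.ιA →₀ R), κ)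
          rw [Prod.smul_mk, smul_zero]
        rw [e4, smul_add, smul_neg, smul_smul, mul_comm x r]
        abel
      exact e3

end Pool.Agent.Helper81.CR
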